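import Mathlib

/-!
# A submonoid of the amenable functions which is not of the form `P_X`

The injective amenable functions form a submonoid `A` of `(Am, ∘)`, and no class `X` of metric
spaces satisfies `P_X = A`.
-/

namespace Pool.Agent.Results.MP_6117a1_gt.InjectiveAmenable

open Set
open scoped NNReal

universe u

/-- `ρ : Y × Y → [0, ∞)` is a metric on `Y`. -/
def IsMetric {Y : Type u} (ρ : Y → Y → ℝ≥0) : Prop :=
  (∀ x y, ρ x y = 0 ↔ x = y) ∧ (∀ x y, ρ x y = ρ y x) ∧ ∀ x y z, ρ x z ≤ ρ x y + ρ y z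

/-- A class of nonempty metric spaces `(Y, ρ)` (any class, not necessarily closed under
isometries). -/
structure MetricClass where
  /-- `Mem Y ρ` says that `(Y, ρ)` belongs to the class -/
  Mem : (Y : Type u) → (Y → Y → ℝ≥0) → Prop
  /-- the members are metric spaces -/
  isMetric : ∀ Y ρ, Mem Y ρ → IsMetric ρ
  /-- the members are nonempty -/
  nonempty : ∀ Y ρ, Mem Y ρ → Nonempty Y

/-- The set `P_X` of all functions `f : [0, ∞) → [0, ∞)` such that `(Y, ρ) ∈ X` implies
`(Y, f ∘ ρ) ∈ X`. -/
def preservers (X : MetricClass.{u}) : Set (Function.End ℝ≥0) :=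
  {f | ∀ Y ρ, X.Mem Y ρ → X.Mem Y (fun x y => f (ρ x y))}

/-- `f` is amenable: `f⁻¹(0) = {0}`. -/
def Amenable (f : Function.End ℝ≥0) : Prop := f ⁻¹' {0} = {0}

lemma amenable_iff (f : Function.End ℝ≥0) : Amenable f ↔ ∀ x, f x = 0 ↔ x = 0 := by
  unfold Amenable
  rw [Set.ext_iff]
  rfl

/-- The monoid of the injective amenable functions. -/
def A : Submonoid (Function.End ℝ≥0) where
  carrier := {f | Function.Injective f ∧ Amenable f}
  one_mem' := ⟨Function.injective_id, by rw [amenable_iff]; intro x; rfl⟩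
  mul_mem' := by
    rintro f g ⟨hf, hf0⟩ ⟨hg, hg0⟩
    rw [amenable_iff] at hf0 hg0
    refine ⟨hf.comp hg, ?_⟩
    rw [amenable_iff]
    intro x
    exact (hf0 (g x)).trans (hg0 x)

/-- exchanging two positive numbers -/
lemma swap_mem {a b : ℝ≥0} (ha : a ≠ 0) (hb : b ≠ 0) :
    (show Function.End ℝ≥0 from (Equiv.swap a b : ℝ≥0 → ℝ≥0)) ∈ A := by
  refine ⟨(Equiv.swap a b).injective, ?_⟩
  rw [amenable_iff]
  intro x
  have h0 : Equiv.swap a b 0 = 0 := Equiv.swap_apply_of_ne_of_ne ha.symm hb.symm
  constructor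
  · intro h
    apply (Equiv.swap a b).injective
    rw [h0]
    exact h
  · rintro rfl
    exact h0

/-- If `P_X` contains the injective amenable functions then no triangle of a member of `X` has a
side different from the two other sides. -/
lemma no_triangle {X : MetricClass.{u}} (hX : (A : Set (Function.End ℝ≥0)) ⊆ preservers X)
    {Y : Type u} {ρ : Y → Y → ℝ≥0} (h : X.Mem Y ρ) {p q r : Y} (hpq : p ≠ q) (hqr : q ≠ r)
    (hpr : p ≠ r) (h1 : ρ p r ≠ ρ p q) (h2 : ρ p r ≠ ρ q r) : False := by
  have hm := X.isMetric _ _ h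
  have ha : ρ p r ≠ 0 := fun h0 => hpr ((hm.1 _ _).1 h0)
  let M : ℝ≥0 := ρ p q + ρ q r + 1
  have hM : M ≠ 0 := by positivity
  have hMp : ρ p q ≠ M := by
    apply ne_of_lt
    show ρ p q < ρ p q + ρ q r + 1
    rw [add_assoc]
    exact lt_add_of_pos_right _ (by positivity)
  have hMq : ρ q r ≠ M := by
    apply ne_of_lt
    show ρ q r < ρ p q + ρ q r + 1
    rw [add_comm (ρ p q), add_assoc]
    exact lt_add_of_pos_right _ (by positivity)
  have hf := hX (swap_mem ha hM) Y ρ h
  have hm' := (X.isMetric _ _ hf).2.2 p q r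
  have e1 : Equiv.swap (ρ p r) M (ρ p r) = M := Equiv.swap_apply_left _ _
  have e2 : Equiv.swap (ρ p r) M (ρ p q) = ρ p q := Equiv.swap_apply_of_ne_of_ne h1.symm hMp
  have e3 : Equiv.swap (ρ p r) M (ρ q r) = ρ q r := Equiv.swap_apply_of_ne_of_ne h2.symm hMq
  have hm'' : Equiv.swap (ρ p r) M (ρ p r) ≤
      Equiv.swap (ρ p r) M (ρ p q) + Equiv.swap (ρ p r) M (ρ q r) := hm'
  rw [e1, e2, e3] at hm''
  have : ρ p q + ρ q r < M := lt_add_of_pos_right _ (by positivity)
  exact absurd hm'' (not_le.2 this)

/-- All nonzero distances in a member of `X` are equal. -/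
lemma equilateral {X : MetricClass.{u}} (hX : (A : Set (Function.End ℝ≥0)) ⊆ preservers X)
    {Y : Type u} {ρ : Y → Y → ℝ≥0} (h : X.Mem Y ρ) {x y z w : Y} (hxy : x ≠ y) (hzw : z ≠ w) :
    ρ x y = ρ z w := by
  have hm := X.isMetric _ _ h
  -- two sides with a common vertex
  have key : ∀ p q r : Y, p ≠ q → q ≠ r → ρ p q = ρ q r := by
    intro p q r hpq hqr
    by_contra hne
    have hpr : p ≠ r := by
      rintro rfl
      exact hne (hm.2.1 _ _)
    by_cases h1 : ρ p r = ρ p q
    · -- the side `q r` differs from the two others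
      have h2 : ρ q r ≠ ρ q p := by
        rw [hm.2.1 q p]
        exact fun h => hne h.symm
      have h3 : ρ q r ≠ ρ p r := by
        rw [h1]
        exact fun h => hne h.symm
      exact no_triangle hX h hpq.symm hpr hqr h2 h3
    · -- the side `p q` differs from the two others
      have h2 : ρ p q ≠ ρ p r := fun h => h1 h.symm
      have h3 : ρ p q ≠ ρ r q := by
        rw [hm.2.1 r q]
        exact hne
      exact no_triangle hX h hpr hqr.symm hpq h2 h3
  by_cases hyz : y = z
  · subst hyz
    exact key x y w hxy hzw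
  · rw [key x y z hxy hyz]
    exact key y z w hyz hzw

/-- There is a submonoid `A` of the monoid of amenable functions (with composition) such that no
class `X` of nonempty metric spaces satisfies `P_X = A`. -/
theorem result : ∃ A : Submonoid (Function.End ℝ≥0), (∀ f ∈ A, Amenable f) ∧
    ∀ X : MetricClass.{u}, preservers X ≠ (A : Set (Function.End ℝ≥0)) := by
  refine ⟨A, fun f hf => hf.2, ?_⟩
  intro X hXA
  have hX : (A : Set (Function.End ℝ≥0)) ⊆ preservers X := hXA.ge
  -- the function `min x 1` is not injective but belongs to `P_X`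
  let g : Function.End ℝ≥0 := fun x => min x 1
  have hg : g ∈ preservers X := by
    intro Y ρ h
    have hm := X.isMetric _ _ h
    by_cases hY : ∃ x y : Y, x ≠ y
    · obtain ⟨x, y, hxy⟩ := hY
      have hk : ρ x y ≠ 0 := fun h0 => hxy ((hm.1 _ _).1 h0)
      have hgk : min (ρ x y) 1 ≠ 0 := by
        intro h0
        rcases min_eq_bot.1 h0 with h1 | h1
        · exact hk h1
        · exact one_ne_zero h1
      have h1 := hX (swap_mem hk hgk) Y ρ h
      have h2 : (fun a b => g (ρ a b)) = fun a b => Equiv.swap (ρ x y) (min (ρ x y) 1) (ρ a b) := by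
        funext a b
        by_cases hab : a = b
        · subst hab
          have h3 : ρ a a = 0 := (hm.1 _ _).2 rfl
          rw [h3, Equiv.swap_apply_of_ne_of_ne hk.symm hgk.symm]
          show min (0 : ℝ≥0) 1 = 0
          exact min_eq_left zero_le_one
        · rw [equilateral hX h hab hxy, Equiv.swap_apply_left]
      rw [h2]
      exact h1
    · push Not at hY
      have h2 : (fun a b => g (ρ a b)) = ρ := by
        funext a b
        have h3 : ρ a b = 0 := (hm.1 _ _).2 (hY a b)
        rw [h3]
        exact min_eq_left zero_le_one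
      rw [h2]
      exact h
  rw [hXA] at hg
  have h1 : g 1 = g 2 := by
    show min (1 : ℝ≥0) 1 = min 2 1
    rw [min_self, min_eq_right one_le_two]
  have h2 : (1 : ℝ≥0) = 2 := hg.1 h1
  exact absurd h2 (by norm_num)

end Pool.Agent.Results.MP_6117a1_gt.InjectiveAmenable
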